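import Mathlib
import Pool.Agent.Y943.Fu.Gen

/-!
# Furstenberg's orbit closure conjecture: numbers with exponentially good approximations by
fractions with generic denominators

(1) If `x` follows, for arbitrarily large `q`, the first `N ≥ q ^ s` points of an orbit of a fraction
`c / q` under multiplication by `b` which are different modulo one, then the orbit closure of `x` has
Hausdorff dimension at least `s`. (2) There is a set `Q` of natural density one such that every real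
number `x` with `|x - c/q| ≤ exp(- q ^ δ)`, `0 < δ ≤ 1/2`, for infinitely many `q ∈ Q` with `c` coprime
to `q`, has orbit closures of dimension at least `δ` in all integer bases. So the inequality of
Furstenberg holds for such `x` if `δ = 1/2`, for all pairs of bases.
-/

set_option autoImplicit false

namespace Pool.Agent.Results.MP_c9a594_an.GenericDenominators

open Filter Topology Pool.Agent.Y943.Fu
open scoped ENNReal NNReal

theorem result :
    (∀ b : ℕ, 2 ≤ b → ∀ x : ℝ, ∀ s : ℝ≥0,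
      (∀ K : ℕ, ∃ q N : ℕ, K ≤ q ∧ ∃ c : ℤ, (q : ℝ) ^ (s : ℝ) ≤ N ∧
        (∀ i j : ℕ, i < j → j < N → ¬ (q : ℤ) ∣ c * b ^ j - c * b ^ i) ∧
        (b : ℝ) ^ N * |x - c / q| ≤ 1 / (4 * q)) →
      (s : ℝ≥0∞) ≤ dimH (closure (Set.range fun n : ℕ => Int.fract ((b : ℝ) ^ n * x)))) ∧
    (∃ Q : Set ℕ,
      Tendsto (fun X : ℕ => (({q : ℕ | 1 ≤ q ∧ q ≤ X ∧ q ∈ Q} : Set ℕ).ncard : ℝ) / X)
        atTop (𝓝 1) ∧
      ∀ δ : ℝ, 0 < δ → δ ≤ 1 / 2 → ∀ x : ℝ,
        (∀ K : ℕ, ∃ q ∈ Q, K ≤ q ∧ ∃ c : ℤ, IsCoprime c q ∧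
          |x - c / q| ≤ Real.exp (-(q : ℝ) ^ δ)) →
        (∀ b : ℕ, 2 ≤ b → ENNReal.ofReal δ ≤
          dimH (closure (Set.range fun n : ℕ => Int.fract ((b : ℝ) ^ n * x)))) ∧
        (δ = 1 / 2 → ∀ a b : ℕ, 2 ≤ a → 2 ≤ b → 1 ≤
          dimH (closure (Set.range fun n : ℕ => Int.fract ((a : ℝ) ^ n * x))) +
          dimH (closure (Set.range fun n : ℕ => Int.fract ((b : ℝ) ^ n * x))))) := by
  refine ⟨fun b hb x s h => le_dimH_of_fractions hb h, ?_⟩
  obtain ⟨W, hW, hmain⟩ := generic_dim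
  refine ⟨{q | ¬ W q}, ?_, ?_⟩
  · exact density_one hW
  · intro δ hδ0 hδ x hx
    have key : ∀ b : ℕ, 2 ≤ b → ENNReal.ofReal δ ≤
        dimH (closure (Set.range fun n : ℕ => Int.fract ((b : ℝ) ^ n * x))) := by
      intro b hb
      refine hmain b hb δ hδ0 hδ x fun K => ?_
      obtain ⟨q, hq, hK, c, hc, hclose⟩ := hx K
      exact ⟨q, hK, hq, c, hc, hclose⟩
    refine ⟨key, fun hhalf a b ha hb => ?_⟩
    have h1 := add_le_add (key a ha) (key b hb)
    refine le_trans (le_of_eq ?_) h1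
    rw [← ENNReal.ofReal_add hδ0.le hδ0.le, hhalf]
    norm_num

end Pool.Agent.Results.MP_c9a594_an.GenericDenominators
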