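import Mathlib
import Pool.Agent.Y943.Fu.Dense2

/-!
# Furstenberg's orbit closure conjecture: Liouville numbers with generic denominators have dense
orbits in all bases

There is a set `Q` of natural density one such that every real number `x` with
`|x - c/q| ≤ q ^ (-q)` for infinitely many `q ∈ Q` (with `c` coprime to `q`) has a dense orbit modulo
one under multiplication by every integer `b ≥ 2`. Almost all `q` have a prime factor `p` (exactly
once), tending to infinity with `q`, such that a suitable power `b ^ D`, with `b ^ D ≡ 1` modulo the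
part of `q / p` coprime to `b`, generates a subgroup of order at least `p ^ 0.45` modulo `p`; the sums
over such subgroups are small by the theorem of Heath-Brown and Konyagin.
-/

set_option autoImplicit false

namespace Pool.Agent.Results.MP_c9a594_an.GenericLiouvilleDense

open Filter Topology Pool.Agent.Y943.Fu

theorem result : ∃ Q : Set ℕ,
    Tendsto (fun X : ℕ => (({q : ℕ | 1 ≤ q ∧ q ≤ X ∧ q ∈ Q} : Set ℕ).ncard : ℝ) / X)
      atTop (𝓝 1) ∧
    ∀ x : ℝ, (∀ K : ℕ, ∃ q ∈ Q, K ≤ q ∧ ∃ c : ℤ, IsCoprime c q ∧ |x - c / q| ≤ 1 / (q : ℝ) ^ q) →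
      (∀ b : ℕ, 2 ≤ b →
        closure (Set.range fun n : ℕ => Int.fract ((b : ℝ) ^ n * x)) = Set.Icc 0 1) ∧
      ∀ a b : ℕ, 2 ≤ a → 2 ≤ b → 1 ≤
        dimH (closure (Set.range fun n : ℕ => Int.fract ((a : ℝ) ^ n * x))) +
        dimH (closure (Set.range fun n : ℕ => Int.fract ((b : ℝ) ^ n * x))) := by
  obtain ⟨W, hW, hmain⟩ := generic_dense
  refine ⟨{q | ¬ W q}, density_one hW, fun x hx => ?_⟩
  have key : ∀ b : ℕ, 2 ≤ b → orb b x = Set.Icc 0 1 := by
    refine hmain x fun K => ?_
    obtain ⟨q, hq, hK, c, hc, hclose⟩ := hx K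
    exact ⟨q, hK, hq, c, hc, hclose⟩
  refine ⟨key, fun a b _ hb => ?_⟩
  have hd := dimH_orb (key b hb)
  rw [orb] at hd
  rw [hd]
  exact le_add_self

end Pool.Agent.Results.MP_c9a594_an.GenericLiouvilleDense
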