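import Mathlib
import Pool.Agent.W765.Uni2

/-!
# Furstenberg's orbit closure conjecture: generic points of invariant measures and minimal sets

Let `a ≥ 2` and let `O m r` be the closure of the orbit of `r` modulo one under multiplication by
`m`.

1. Let `μ` be a non-atomic probability measure on the circle invariant under multiplication by `a`
(of any entropy, zero included). The points `x` of the support of `μ` with `O b x = [0,1]` for ALL
`b ≥ 2` multiplicatively independent of `a` form a residual (comeagre) subset of the support, and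
have full measure.
2. The same points form a residual subset of every infinite minimal set of the multiplication by `a`.
3. Let `b` be multiplicatively independent of `a`. For all `ε, δ > 0` there is one `M` such that, for
every irrational `x` and every fraction `x` with denominator at least `M` and coprime to `a b`, in
every window of at least `M` consecutive indices `j` the orbit of `a ^ j x` under multiplication by
`b` is `ε`-dense except for a proportion at most `δ` of the `j`.
-/

set_option autoImplicit false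

open MeasureTheory Filter Topology Set TopologicalSpace

namespace Pool.Agent.Results.MP_c9a594_an.GenericPoints

/-- the closure of the orbit of `r` modulo one under multiplication by `m` -/
def O (m : ℕ) (r : ℝ) : Set ℝ := closure (range fun n : ℕ => Int.fract ((m : ℝ) ^ n * r))

/-- multiplicative independence -/
def Indep (a b : ℕ) : Prop := ∀ k l : ℕ, 0 < k → 0 < l → a ^ k ≠ b ^ l

/-- the conclusion of the conjecture in the strongest form, for all `b` together: a dense orbit under
multiplication by every `b` multiplicatively independent of `a`, for all real numbers `r` in the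
class `x` modulo one -/
def Good (a : ℕ) (x : AddCircle (1 : ℝ)) : Prop :=
  ∀ r : ℝ, (r : AddCircle (1 : ℝ)) = x → ∀ b : ℕ, 2 ≤ b → Indep a b →
    O b r = Icc 0 1 ∧ 1 ≤ dimH (O a r) + dimH (O b r)

theorem good_of_dense {a : ℕ} {x : AddCircle (1 : ℝ)}
    (h : ∀ b : ℕ, 2 ≤ b → Indep a b → Dense (range fun n : ℕ => b ^ n • x)) : Good a x := by
  rintro r rfl b hb hab
  replace h := h b hb hab
  have h1 : O b r = Icc 0 1 := Pool.Agent.W765.Det.closure_fract h
  refine ⟨h1, ?_⟩
  have h2 : dimH (O b r) = 1 := by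
    rw [h1]
    have h3 : (interior (Icc (0 : ℝ) 1)).Nonempty := by
      rw [interior_Icc]; exact ⟨1 / 2, by norm_num, by norm_num⟩
    rw [Real.dimH_of_nonempty_interior h3]
    simp
  rw [h2]
  exact le_add_self

/-- the points of `X` with a dense orbit form a residual set if they are dense in `X` -/
theorem residual_of_dense' {b : ℕ} {X : Set (AddCircle (1 : ℝ))}
    (h : ∀ V : Set (AddCircle (1 : ℝ)), IsOpen V → (V ∩ X).Nonempty →
      ∃ x ∈ V ∩ X, Dense (range fun n : ℕ => b ^ n • x)) :
    {x : X | Dense (range fun n : ℕ => b ^ n • (x : AddCircle (1 : ℝ)))} ∈ residual X := by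
  obtain ⟨B, hBc, hBe, hB⟩ := exists_countable_basis (AddCircle (1 : ℝ))
  have key : ∀ U ∈ B, {x : X | ∃ n : ℕ, b ^ n • (x : AddCircle (1 : ℝ)) ∈ U} ∈ residual X := by
    intro U hUb
    have hU : IsOpen U := hB.isOpen hUb
    have hUne : U.Nonempty := nonempty_iff_ne_empty.2 (fun h0 => hBe (h0 ▸ hUb))
    refine residual_of_dense_open ?_ ?_
    · have : {x : X | ∃ n : ℕ, b ^ n • (x : AddCircle (1 : ℝ)) ∈ U} =
          ⋃ n : ℕ, (fun x : X => b ^ n • (x : AddCircle (1 : ℝ))) ⁻¹' U := by ext x; simp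
      rw [this]
      exact isOpen_iUnion fun n => hU.preimage (by fun_prop)
    · rw [dense_iff_inter_open]
      intro V' hV' hV'ne
      obtain ⟨V, hV, rfl⟩ := isOpen_induced_iff.1 hV'
      obtain ⟨⟨v, hvX⟩, hvV⟩ := hV'ne
      obtain ⟨x, ⟨hxV, hxX⟩, hx⟩ := h V hV ⟨v, hvV, hvX⟩
      obtain ⟨_, ⟨n, rfl⟩, hn⟩ := hx.exists_mem_open hU hUne
      exact ⟨⟨x, hxX⟩, hxV, n, hn⟩
  have h2 : (⋂ U ∈ B, {x : X | ∃ n : ℕ, b ^ n • (x : AddCircle (1 : ℝ)) ∈ U}) ∈ residual X :=
    (countable_bInter_mem hBc).2 key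
  refine Filter.mem_of_superset h2 fun x hx => ?_
  rw [mem_iInter₂] at hx
  rw [mem_ofPred_eq, hB.dense_iff]
  intro U hUb _
  obtain ⟨n, hn⟩ := hx U hUb
  exact ⟨_, hn, n, rfl⟩

theorem dense_of_ae {b : ℕ} {μ : Measure (AddCircle (1 : ℝ))} (hsupp : μ.support ∈ ae μ)
    (hd : ∀ᵐ x ∂μ, Dense (range fun n : ℕ => b ^ n • x)) :
    ∀ V : Set (AddCircle (1 : ℝ)), IsOpen V → (V ∩ μ.support).Nonempty →
      ∃ x ∈ V ∩ μ.support, Dense (range fun n : ℕ => b ^ n • x) := by
  rintro V hV ⟨v, hvV, hvs⟩
  have h1 : 0 < μ V := (Measure.mem_support_iff_forall v).1 hvs V (hV.mem_nhds hvV)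
  by_contra hcon
  push Not at hcon
  have h2 : ∀ᵐ x ∂μ, x ∉ V := by
    filter_upwards [hd, hsupp] with x hx hxs hxV
    exact hcon x ⟨hxV, hxs⟩ hx
  rw [ae_iff] at h2
  simp only [not_not] at h2
  exact h1.ne' h2

theorem mulIndep {a b : ℕ} (ha : 2 ≤ a) (hb : 2 ≤ b) (hab : Indep a b) :
    Pool.Agent.H705R2.MulIndep b a := by
  intro m n h
  rcases Nat.eq_zero_or_pos m with hm | hm
  · subst hm
    rw [pow_zero] at h
    refine ⟨rfl, ?_⟩
    by_contra hn
    have := Nat.one_lt_pow hn (by omega : 1 < a)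
    omega
  · rcases Nat.eq_zero_or_pos n with hn | hn
    · subst hn
      rw [pow_zero] at h
      have := Nat.one_lt_pow hm.ne' (by omega : 1 < b)
      omega
    · exact absurd h.symm (hab n m hn hm)

open Classical in
theorem result (a : ℕ) (ha : 2 ≤ a) :
    (∀ μ : Measure (AddCircle (1 : ℝ)), IsProbabilityMeasure μ → (∀ x, μ {x} = 0) →
      MeasurePreserving (fun x : AddCircle (1 : ℝ) => a • x) μ μ →
        {x : μ.support | Good a x} ∈ residual μ.support ∧ ∀ᵐ x ∂μ, x ∈ μ.support ∧ Good a x) ∧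
    (∀ X : Set (AddCircle (1 : ℝ)), IsClosed X → X.Infinite → (∀ x ∈ X, a • x ∈ X) →
      (∀ x ∈ X, X ⊆ closure (range fun n : ℕ => a ^ n • x)) →
        {x : X | Good a x} ∈ residual X) ∧
    (∀ b : ℕ, 2 ≤ b → Indep a b → ∀ ε : ℝ, 0 < ε → ∀ δ : ℝ, 0 < δ → ∃ M : ℕ, ∀ x : ℝ,
      (Irrational x ∨ ∃ k N : ℕ, M ≤ N ∧ N.Coprime (a * b) ∧ k.Coprime N ∧ x = k / N) →
      ∀ s n : ℕ, M ≤ n →
        (((Finset.range n).filter (fun i => ∃ y ∈ Icc (0 : ℝ) 1, ∀ m : ℕ,
          ε ≤ |Int.fract ((b : ℝ) ^ m * ((a : ℝ) ^ (s + i) * x)) - y|)).card : ℝ) ≤ δ * n) := by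
  refine ⟨fun μ hμ hat hinv => ?_, fun X hX hinf hXinv hmin => ?_, fun b hb hab ε hε δ hδ => ?_⟩
  · have hd : ∀ᵐ x ∂μ, ∀ b : ℕ, 2 ≤ b → Indep a b → Dense (range fun n : ℕ => b ^ n • x) := by
      rw [ae_all_iff]
      intro b
      by_cases hb : 2 ≤ b ∧ Indep a b
      · filter_upwards [Pool.Agent.W765.Sta.dense_orbit hb.1 ha (mulIndep ha hb.1 hb.2) hat hinv]
          with x hx _ _
        exact hx
      · exact Filter.Eventually.of_forall fun x h1 h2 => absurd ⟨h1, h2⟩ hb
    have hsupp : μ.support ∈ ae μ := Measure.support_mem_ae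
    refine ⟨?_, ?_⟩
    · have h0 : ∀ᶠ x : μ.support in residual μ.support, ∀ b : ℕ, 2 ≤ b → Indep a b →
          Dense (range fun n : ℕ => b ^ n • (x : AddCircle (1 : ℝ))) := by
        rw [eventually_countable_forall]
        intro b
        by_cases hb : 2 ≤ b ∧ Indep a b
        swap
        · exact Filter.Eventually.of_forall fun x h1 h2 => absurd ⟨h1, h2⟩ hb
        refine Filter.Eventually.mono (residual_of_dense' (b := b) ?_) fun x hx _ _ => hx
        have hd' : ∀ᵐ x ∂μ, Dense (range fun n : ℕ => b ^ n • x) := by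
          filter_upwards [hd] with x hx
          exact hx b hb.1 hb.2
        exact dense_of_ae hsupp hd'
      exact Filter.Eventually.mono h0 fun x hx => good_of_dense hx
    · filter_upwards [hd, hsupp] with x hx hxs
      exact ⟨hxs, good_of_dense hx⟩
  · have h0 : ∀ᶠ x : X in residual X, ∀ b : ℕ, 2 ≤ b → Indep a b →
        Dense (range fun n : ℕ => b ^ n • (x : AddCircle (1 : ℝ))) := by
      rw [eventually_countable_forall]
      intro b
      by_cases hb : 2 ≤ b ∧ Indep a b
      swap
      · exact Filter.Eventually.of_forall fun x h1 h2 => absurd ⟨h1, h2⟩ hb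
      exact Filter.Eventually.mono
        (Pool.Agent.W765.Det.residual_dense hb.1 ha (mulIndep ha hb.1 hb.2) hX hinf hXinv hmin)
        fun x hx _ _ => hx
    exact Filter.Eventually.mono h0 fun x hx => good_of_dense hx
  · have hind := mulIndep ha hb hab
    obtain ⟨K, hK⟩ := exists_nat_gt (1 / ε)
    have hK0 : (0 : ℝ) < K := lt_trans (by positivity) hK
    have hKε : 1 / (K : ℝ) < ε := by
      rw [div_lt_iff₀ hK0]
      rw [div_lt_iff₀ hε] at hK
      linarith
    have hex : ∀ i : ℕ, ∃ M : ℕ, ∀ x : ℝ,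
        (Irrational x ∨ ∃ k N : ℕ, M ≤ N ∧ N.Coprime (a * b) ∧ k.Coprime N ∧ x = k / N) →
        ∀ s n : ℕ, M ≤ n → i < K →
          (((Finset.range n).filter (fun j => ∀ m : ℕ,
            Int.fract ((b : ℝ) ^ m * ((a : ℝ) ^ (s + j) * x)) ∉
              Ioo ((i : ℝ) / K) ((i + 1) / K))).card : ℝ) ≤ δ / K * n := by
      intro i
      by_cases hi : i < K
      · obtain ⟨M, hM⟩ := Pool.Agent.W765.Det.uniform_fract ha hb hind
          (U := Ioo ((i : ℝ) / K) ((i + 1) / K)) isOpen_Ioo (δ := δ / K) (by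
            refine ⟨(i + 1 / 2) / K, ⟨by gcongr; linarith, by gcongr; linarith⟩, by positivity, ?_⟩
            rw [div_le_one hK0]
            have : (i : ℝ) + 1 ≤ K := by exact_mod_cast hi
            linarith) (by positivity)
        refine ⟨M, fun x hx s n hn _ => hM x ?_ s n hn⟩
        rcases hx with hx | hx
        · exact Or.inl hx
        · exact Or.inr (Or.inl hx)
      · exact ⟨0, fun _ _ _ _ _ h => absurd h hi⟩
    choose M hM using hex
    refine ⟨(Finset.range K).sup M, fun x hx s n hn => ?_⟩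
    have hle : ∀ i < K, M i ≤ (Finset.range K).sup M := fun i hi =>
      Finset.le_sup (f := M) (Finset.mem_range.2 hi)
    have hsub : (Finset.range n).filter (fun i => ∃ y ∈ Icc (0 : ℝ) 1, ∀ m : ℕ,
          ε ≤ |Int.fract ((b : ℝ) ^ m * ((a : ℝ) ^ (s + i) * x)) - y|) ⊆
        (Finset.range K).biUnion fun i => (Finset.range n).filter (fun j => ∀ m : ℕ,
            Int.fract ((b : ℝ) ^ m * ((a : ℝ) ^ (s + j) * x)) ∉
              Ioo ((i : ℝ) / K) ((i + 1) / K)) := by
      intro j hj
      rw [Finset.mem_filter] at hj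
      obtain ⟨hj1, y, hy, hyε⟩ := hj
      rw [Finset.mem_biUnion]
      -- the interval containing `y`
      obtain ⟨i, hi, hi1, hi2⟩ : ∃ i : ℕ, i < K ∧ (i : ℝ) / K ≤ y ∧ y ≤ (i + 1) / K := by
        rcases eq_or_lt_of_le hy.2 with h1 | h1
        · refine ⟨K - 1, ?_, ?_, ?_⟩
          · have : 0 < K := by exact_mod_cast hK0
            omega
          · have h2 : 1 ≤ K := by exact_mod_cast hK0
            rw [h1, div_le_one hK0, Nat.cast_sub h2]
            push_cast; linarith
          · have h2 : 1 ≤ K := by exact_mod_cast hK0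
            rw [h1, Nat.cast_sub h2, le_div_iff₀ hK0]
            push_cast; linarith
        · refine ⟨⌊y * K⌋₊, ?_, ?_, ?_⟩
          · rw [Nat.floor_lt (mul_nonneg hy.1 hK0.le)]
            nlinarith
          · rw [div_le_iff₀ hK0]
            exact Nat.floor_le (mul_nonneg hy.1 hK0.le)
          · rw [le_div_iff₀ hK0]
            exact (Nat.lt_floor_add_one _).le
      refine ⟨i, Finset.mem_range.2 hi, Finset.mem_filter.2 ⟨hj1, fun m hm => ?_⟩⟩
      have h3 := hyε m
      have h4 : |Int.fract ((b : ℝ) ^ m * ((a : ℝ) ^ (s + j) * x)) - y| ≤ 1 / K := by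
        have h5 : ((i : ℝ) + 1) / K = (i : ℝ) / K + 1 / K := by ring
        rw [abs_le]
        constructor
        · linarith [hm.1, hm.2]
        · linarith [hm.1, hm.2]
      linarith
    have h1 : (((Finset.range n).filter (fun i => ∃ y ∈ Icc (0 : ℝ) 1, ∀ m : ℕ,
          ε ≤ |Int.fract ((b : ℝ) ^ m * ((a : ℝ) ^ (s + i) * x)) - y|)).card : ℝ) ≤
        ∑ i ∈ Finset.range K, (((Finset.range n).filter (fun j => ∀ m : ℕ,
            Int.fract ((b : ℝ) ^ m * ((a : ℝ) ^ (s + j) * x)) ∉
              Ioo ((i : ℝ) / K) ((i + 1) / K))).card : ℝ) := by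
      exact_mod_cast (Finset.card_le_card hsub).trans Finset.card_biUnion_le
    refine h1.trans ?_
    calc (∑ i ∈ Finset.range K, (((Finset.range n).filter (fun j => ∀ m : ℕ,
            Int.fract ((b : ℝ) ^ m * ((a : ℝ) ^ (s + j) * x)) ∉
              Ioo ((i : ℝ) / K) ((i + 1) / K))).card : ℝ))
        ≤ ∑ _i ∈ Finset.range K, δ / K * n := by
          refine Finset.sum_le_sum fun i hi => ?_
          have hi' := Finset.mem_range.1 hi
          refine hM i x ?_ s n ((hle i hi').trans hn) hi'
          rcases hx with hx | ⟨k, N, h2, h3, h4, h5⟩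
          · exact Or.inl hx
          · exact Or.inr ⟨k, N, (hle i hi').trans h2, h3, h4, h5⟩
      _ = δ * n := by
          rw [Finset.sum_const, Finset.card_range, nsmul_eq_mul]
          field_simp

end Pool.Agent.Results.MP_c9a594_an.GenericPoints
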