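import Mathlib
import Pool.Agent.Y943.Fu.SmoothMain

/-!
# Furstenberg's orbit closure conjecture: numbers close to fractions with smooth denominators

Let `b ≥ 2` and `s` be coprime and `δ > 0`. If the irrational number `x` satisfies
`|x - c/q| ≤ exp(- q ^ δ)` for infinitely many `q` all of whose primes divide `s`, then the orbit of
`x` under multiplication by `b` is dense modulo one, so that Furstenberg's inequality holds for the
pair `a, b` with any `a`. It applies to the lacunary series `∑ s ^ (-n_k)`, where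
`n_{k+1} ≥ s ^ (δ n_k)` for infinitely many `k`.
-/

set_option autoImplicit false

namespace Pool.Agent.Results.MP_c9a594_an.SmoothDenominators

open Finset Pool.Agent.Y943.Fu

/-- the lacunary series -/
lemma lacunary {s : ℕ} (hs : 2 ≤ s) {n : ℕ → ℕ} (hn : StrictMono n) (k : ℕ) :
    ∃ c : ℕ, 0 < (∑' i, 1 / (s : ℝ) ^ n i) - c / (s : ℝ) ^ n k ∧
      (∑' i, 1 / (s : ℝ) ^ n i) - c / (s : ℝ) ^ n k ≤ 2 / (s : ℝ) ^ n (k + 1) := by
  have hsr : (2 : ℝ) ≤ s := by exact_mod_cast hs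
  have hs0 : (0 : ℝ) < s := by linarith
  have hle : ∀ i, 1 / (s : ℝ) ^ n i ≤ (1 / 2 : ℝ) ^ i := fun i => by
    rw [one_div_pow]
    apply one_div_le_one_div_of_le (by positivity)
    calc (2 : ℝ) ^ i ≤ 2 ^ n i := pow_le_pow_right₀ (by norm_num) hn.le_apply
      _ ≤ (s : ℝ) ^ n i := by gcongr
  have hsum : Summable fun i => 1 / (s : ℝ) ^ n i :=
    Summable.of_nonneg_of_le (fun i => by positivity) hle summable_geometric_two
  have hsplit := hsum.sum_add_tsum_nat_add (k + 1)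
  have htail : Summable fun j => 1 / (s : ℝ) ^ n (j + (k + 1)) :=
    (summable_nat_add_iff (k + 1)).2 hsum
  refine ⟨∑ i ∈ range (k + 1), s ^ (n k - n i), ?_⟩
  have hc : (((∑ i ∈ range (k + 1), s ^ (n k - n i) : ℕ)) : ℝ) / (s : ℝ) ^ n k =
      ∑ i ∈ range (k + 1), 1 / (s : ℝ) ^ n i := by
    push_cast
    rw [Finset.sum_div]
    refine Finset.sum_congr rfl fun i hi => ?_
    have h1 : n i ≤ n k := hn.monotone (by simpa [Nat.lt_succ_iff] using hi)
    rw [div_eq_div_iff (by positivity) (by positivity), one_mul, ← pow_add]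
    congr 1
    omega
  rw [hc, ← hsplit, add_sub_cancel_left]
  constructor
  · exact htail.tsum_pos (fun j => by positivity) 0 (by positivity)
  · have h2 : ∀ j, 1 / (s : ℝ) ^ n (j + (k + 1)) ≤ 1 / (s : ℝ) ^ n (k + 1) * (1 / 2 : ℝ) ^ j := by
      intro j
      have h3 : n (k + 1) + j ≤ n (j + (k + 1)) := by
        have := hn.add_le_nat j (k + 1)
        omega
      rw [one_div_pow, one_div_mul_one_div]
      apply one_div_le_one_div_of_le (by positivity)
      calc (s : ℝ) ^ n (k + 1) * 2 ^ j ≤ (s : ℝ) ^ n (k + 1) * (s : ℝ) ^ j := by gcongr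
        _ = (s : ℝ) ^ (n (k + 1) + j) := by rw [pow_add]
        _ ≤ (s : ℝ) ^ n (j + (k + 1)) := pow_le_pow_right₀ (by linarith) h3
    calc ∑' j, 1 / (s : ℝ) ^ n (j + (k + 1)) ≤
        ∑' j, 1 / (s : ℝ) ^ n (k + 1) * (1 / 2 : ℝ) ^ j :=
          htail.tsum_le_tsum h2 (summable_geometric_two.mul_left _)
      _ = 2 / (s : ℝ) ^ n (k + 1) := by
          rw [tsum_mul_left, tsum_geometric_two]
          ring

theorem result : ∀ b s : ℕ, 2 ≤ b → 1 ≤ s → Nat.Coprime b s → ∀ δ : ℝ, 0 < δ →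
    (∀ x : ℝ, Irrational x →
      (∀ Q : ℕ, ∃ q : ℕ, Q ≤ q ∧ (∀ p : ℕ, p.Prime → p ∣ q → p ∣ s) ∧
        ∃ c : ℤ, |x - c / q| ≤ Real.exp (-(q : ℝ) ^ δ)) →
      closure (Set.range fun n : ℕ => Int.fract ((b : ℝ) ^ n * x)) = Set.Icc 0 1 ∧
      ∀ a : ℕ, 1 ≤ dimH (closure (Set.range fun n : ℕ => Int.fract ((a : ℝ) ^ n * x))) +
        dimH (closure (Set.range fun n : ℕ => Int.fract ((b : ℝ) ^ n * x)))) ∧
    (2 ≤ s → ∀ n : ℕ → ℕ, StrictMono n →
      (∀ K : ℕ, ∃ k : ℕ, K ≤ k ∧ ((s : ℝ) ^ n k) ^ δ ≤ n (k + 1)) →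
      ∀ x : ℝ, x = ∑' i, 1 / (s : ℝ) ^ n i →
      Irrational x ∧
      closure (Set.range fun n : ℕ => Int.fract ((b : ℝ) ^ n * x)) = Set.Icc 0 1 ∧
      ∀ a : ℕ, 1 ≤ dimH (closure (Set.range fun n : ℕ => Int.fract ((a : ℝ) ^ n * x))) +
        dimH (closure (Set.range fun n : ℕ => Int.fract ((b : ℝ) ^ n * x)))) := by
  intro b s hb hs1 hsb δ hδ
  have main : ∀ δ : ℝ, 0 < δ → ∀ x : ℝ, Irrational x →
      (∀ Q : ℕ, ∃ q : ℕ, Q ≤ q ∧ (∀ p : ℕ, p.Prime → p ∣ q → p ∣ s) ∧
        ∃ c : ℤ, |x - c / q| ≤ Real.exp (-(q : ℝ) ^ δ)) →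
      closure (Set.range fun n : ℕ => Int.fract ((b : ℝ) ^ n * x)) = Set.Icc 0 1 ∧
      ∀ a : ℕ, 1 ≤ dimH (closure (Set.range fun n : ℕ => Int.fract ((a : ℝ) ^ n * x))) +
        dimH (closure (Set.range fun n : ℕ => Int.fract ((b : ℝ) ^ n * x))) := by
    intro δ hδ x hx h
    have horb := smooth_orbit hb hs1 hsb hx hδ h
    refine ⟨horb, fun a => ?_⟩
    have hd := dimH_orb horb
    rw [orb] at hd
    rw [hd]
    exact le_add_self
  refine ⟨main δ hδ, ?_⟩
  intro hs n hn hgap x hxdef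
  have hsr : (2 : ℝ) ≤ s := by exact_mod_cast hs
  have hs0 : (0 : ℝ) < s := by linarith
  -- growth
  have hbig : ∀ T : ℝ, ∃ K : ℕ, ∀ k : ℕ, K ≤ k → T ≤ (s : ℝ) ^ n k := by
    intro T
    obtain ⟨K, hK⟩ := exists_nat_gt T
    refine ⟨K, fun k hk => ?_⟩
    have h1 : (k : ℝ) ≤ n k := by exact_mod_cast hn.le_apply
    have h2 : (n k : ℝ) < (s : ℝ) ^ n k := by exact_mod_cast Nat.lt_pow_self (by omega : 1 < s)
    have h3 : (K : ℝ) ≤ k := by exact_mod_cast hk
    linarith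
  have hpow : ∀ T : ℝ, ∀ β : ℝ, 0 < β → ∃ K : ℕ, ∀ k : ℕ, K ≤ k → T ≤ ((s : ℝ) ^ n k) ^ β := by
    intro T β hβ
    obtain ⟨K, hK⟩ := hbig ((max T 0) ^ (1 / β))
    refine ⟨K, fun k hk => ?_⟩
    have h1 : ((max T 0) ^ (1 / β)) ^ β ≤ ((s : ℝ) ^ n k) ^ β :=
      Real.rpow_le_rpow (by positivity) (hK k hk) hβ.le
    rw [← Real.rpow_mul (le_max_right _ _), one_div_mul_cancel hβ.ne', Real.rpow_one] at h1
    exact (le_max_left _ _).trans h1
  -- closeness
  have hclose : ∀ K : ℕ, ∃ k : ℕ, K ≤ k ∧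
      2 / (s : ℝ) ^ n (k + 1) ≤ Real.exp (-((s : ℝ) ^ n k) ^ (δ / 2)) := by
    intro K
    obtain ⟨K1, hK1⟩ := hpow 3 (δ / 2) (by linarith)
    obtain ⟨k, hk, hk2⟩ := hgap (max K K1)
    refine ⟨k, (le_max_left _ _).trans hk, ?_⟩
    have hu := hK1 k ((le_max_right _ _).trans hk)
    set u := ((s : ℝ) ^ n k) ^ (δ / 2) with hudef
    have hu2 : ((s : ℝ) ^ n k) ^ δ = u * u := by
      rw [hudef, ← Real.rpow_add (by positivity)]
      congr 1
      ring
    rw [hu2] at hk2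
    have hl2 : 0.69 < Real.log 2 := by
      have := Real.log_two_gt_d9
      linarith
    have hl2' : Real.log 2 < 0.7 := by
      have := Real.log_two_lt_d9
      linarith
    have hls : Real.log 2 ≤ Real.log s := Real.log_le_log (by norm_num) hsr
    rw [← Real.log_le_log_iff (by positivity) (Real.exp_pos _), Real.log_exp,
      Real.log_div (by norm_num) (by positivity), Real.log_pow]
    have h1 : Real.log 2 * (u * u) ≤ n (k + 1) * Real.log s := by
      rw [mul_comm]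
      gcongr
    nlinarith
  have hirr : Irrational x := by
    rintro ⟨r, hr⟩
    have hrd : (r : ℝ) = r.num / r.den := by exact_mod_cast (Rat.num_div_den r).symm
    have hd0 : (0 : ℝ) < r.den := by exact_mod_cast r.pos
    obtain ⟨m, hm⟩ : ∃ m : ℕ, ∃ k' : ℕ, n k' + m = n (k' + 1) ∧
        (2 * r.den : ℝ) < (s : ℝ) ^ m := by
      -- use that the exponential gap is eventually larger than `n k + m₀`
      by_contra hcon
      push Not at hcon
      -- all late gaps are at most `2 r.den`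
      have hgap2 : ∀ k' : ℕ, n (k' + 1) ≤ n k' + 2 * r.den := by
        intro k'
        by_contra hlt
        push Not at hlt
        have := hcon (n (k' + 1) - n k') k' (by omega)
        have h6 : ((2 * r.den : ℕ) : ℝ) < (s : ℝ) ^ (n (k' + 1) - n k') := by
          have h7 : 2 * r.den < s ^ (n (k' + 1) - n k') :=
            (by omega : 2 * r.den < n (k' + 1) - n k').trans (Nat.lt_pow_self (by omega))
          exact_mod_cast h7
        push_cast at h6
        linarith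
      have hlog : ∃ K3 : ℕ, ∀ k' : ℕ, K3 ≤ k' →
          (n k' : ℝ) + 2 * r.den < ((s : ℝ) ^ n k') ^ δ := by
        have ht : Filter.Tendsto (fun m : ℕ => ((m : ℝ) + 2 * r.den) / ((s : ℝ) ^ δ) ^ m)
            Filter.atTop (nhds 0) := by
          have hsδ : 1 < (s : ℝ) ^ δ := Real.one_lt_rpow (by linarith) hδ
          have t1 := tendsto_pow_const_div_const_pow_of_one_lt 1 hsδ
          have t2 := tendsto_pow_const_div_const_pow_of_one_lt 0 hsδ
          have t3 := t1.add (t2.const_mul (2 * r.den : ℝ))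
          simp only [mul_zero, add_zero] at t3
          refine t3.congr fun m => ?_
          ring
        obtain ⟨M, hM⟩ := Filter.eventually_atTop.1 (ht.eventually (gt_mem_nhds one_pos))
        refine ⟨M, fun k' hk' => ?_⟩
        have h8 := hM (n k') (hk'.trans hn.le_apply)
        have hsδ0 : (0 : ℝ) < ((s : ℝ) ^ δ) ^ n k' := by positivity
        rw [div_lt_one hsδ0] at h8
        have h15 : ((s : ℝ) ^ n k') ^ δ = ((s : ℝ) ^ δ) ^ n k' := by
          rw [← Real.rpow_natCast, ← Real.rpow_mul hs0.le, mul_comm ((n k' : ℕ) : ℝ),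
            Real.rpow_mul hs0.le, Real.rpow_natCast]
        rw [h15]
        exact h8
      obtain ⟨K3, hK3⟩ := hlog
      obtain ⟨k', hk', hk2'⟩ := hgap K3
      have h9 := hK3 k' hk'
      have h10 := hgap2 k'
      have h11 : (n (k' + 1) : ℝ) ≤ n k' + 2 * r.den := by exact_mod_cast h10
      linarith
    obtain ⟨k', hm1, hm2⟩ := hm
    obtain ⟨c', hc1', hc2'⟩ := lacunary hs hn k'
    rw [← hxdef, ← hr] at hc1' hc2'
    have hq0' : (0 : ℝ) < (s : ℝ) ^ n k' := by positivity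
    have h1' : ((r.num * s ^ n k' - c' * r.den : ℤ) : ℝ) =
        ((r : ℝ) - c' / (s : ℝ) ^ n k') * (r.den * (s : ℝ) ^ n k') := by
      push_cast
      rw [hrd]
      field_simp
    have h2' : (0 : ℝ) < ((r.num * s ^ n k' - c' * r.den : ℤ) : ℝ) := by
      rw [h1']
      positivity
    have h3' : (1 : ℝ) ≤ ((r.num * s ^ n k' - c' * r.den : ℤ) : ℝ) := by
      have : (0 : ℤ) < r.num * s ^ n k' - c' * r.den := by exact_mod_cast h2'
      exact_mod_cast this
    rw [h1'] at h3'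
    have h12 : ((r : ℝ) - c' / (s : ℝ) ^ n k') * (r.den * (s : ℝ) ^ n k') ≤
        2 / (s : ℝ) ^ n (k' + 1) * (r.den * (s : ℝ) ^ n k') := by gcongr
    rw [← hm1, pow_add] at h12
    have h13 : 2 / ((s : ℝ) ^ n k' * (s : ℝ) ^ m) * (r.den * (s : ℝ) ^ n k') =
        2 * r.den / (s : ℝ) ^ m := by
      field_simp
    rw [h13] at h12
    have h14 : 2 * r.den / (s : ℝ) ^ m < 1 := by
      rw [div_lt_one (by positivity)]
      exact hm2
    linarith
  refine ⟨hirr, ?_⟩
  refine main (δ / 2) (by linarith) x hirr fun Q => ?_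
  obtain ⟨K, hK⟩ := hbig Q
  obtain ⟨k, hk, hk2⟩ := hclose K
  obtain ⟨c, hc1, hc2⟩ := lacunary hs hn k
  refine ⟨s ^ n k, ?_, fun p hp hps => hp.dvd_of_dvd_pow hps, c, ?_⟩
  · exact_mod_cast hK k hk
  · rw [hxdef]
    push_cast
    rw [abs_of_pos hc1]
    exact hc2.trans hk2

end Pool.Agent.Results.MP_c9a594_an.SmoothDenominators
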